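import Pool.Agent.H13.LN.Targets

/-!
# Equivalence of flat words is a congruence (row EQC)
-/

set_option autoImplicit false

namespace Pool.Agent.H98.LNT

open Finset Pool.Agent.H59.LIN Pool.Agent.H13.LN

theorem st_ctx {n : ℕ} (a b : Wd n) {f f' : Wd n} (h : St f f') :
    St (a ++ f ++ b) (a ++ f' ++ b) := by
  induction h with
  | ss u v i =>
    have := St.ss (a ++ u) (v ++ b) i
    simpa only [List.append_assoc, List.cons_append] using this
  | far u v i j c c' hij =>
    have := St.far (a ++ u) (v ++ b) i j c c' hij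
    simpa only [List.append_assoc, List.cons_append] using this
  | braid u v i j hij =>
    have := St.braid (a ++ u) (v ++ b) i j hij
    simpa only [List.append_assoc, List.cons_append] using this
  | sx u v i =>
    have := St.sx (a ++ u) (v ++ b) i
    simpa only [List.append_assoc, List.cons_append] using this
  | ssx u v i j hij =>
    have := St.ssx (a ++ u) (v ++ b) i j hij
    simpa only [List.append_assoc, List.cons_append] using this
  | ssx' u v i j hij =>
    have := St.ssx' (a ++ u) (v ++ b) i j hij
    simpa only [List.append_assoc, List.cons_append] using this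

theorem eqv_ctx {n : ℕ} (a b : Wd n) {f f' : Wd n} (h : Eqv f f') :
    Eqv (a ++ f ++ b) (a ++ f' ++ b) := by
  unfold Eqv at h ⊢
  induction h with
  | rel x y hxy => exact Relation.EqvGen.rel _ _ (st_ctx a b hxy)
  | refl x => exact Relation.EqvGen.refl _
  | symm x y _ ih => exact Relation.EqvGen.symm _ _ ih
  | trans x y z _ _ ih1 ih2 => exact Relation.EqvGen.trans _ _ _ ih1 ih2

theorem eqc (hRUN : T_RUN) : T_EQC := by
  have hst : ∀ (n : ℕ) (f f' : Wd n), St f f' → run f = run f' ∧ nd f = nd f' :=
    hRUN.2.2.2.2.2.2.1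
  refine ⟨fun n f f' a b h => eqv_ctx a b h, ?_⟩
  intro n f f' h
  unfold Eqv at h
  induction h with
  | rel x y hxy => exact hst n x y hxy
  | refl x => exact ⟨rfl, rfl⟩
  | symm x y _ ih => exact ⟨ih.1.symm, ih.2.symm⟩
  | trans x y z _ _ ih1 ih2 => exact ⟨ih1.1.trans ih2.1, ih1.2.trans ih2.2⟩

end Pool.Agent.H98.LNT
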